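import Pool.Agent.H82.NTC.Pot

/-!
Row PML of the board `ntc`
-/

set_option autoImplicit false

namespace Pool.NTC

open Pool.NET

theorem pml_cmp (S c i : ℤ) (hS : 0 < S) : c = i ∨ S * c ≤ S * i - S ∨ S * i + S ≤ S * c := by
  rcases lt_trichotomy c i with h | h | h
  · right; left
    nlinarith
  · left
    exact h
  · right; right
    nlinarith

theorem pml_thm : PMk Ke.L := by
  intro p e g e' g' h u hp hp' hrel v w s t hs0 hs ht0 ht hlt
  obtain ⟨i, j⟩ := v
  obtain ⟨⟨c, r⟩, k⟩ := w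
  obtain ⟨q0, gq, gW, We, eM, MS⟩ := hp
  obtain ⟨-, gq', gW', We', -, -⟩ := hp'
  have hS : 0 < p.S := by omega
  have a1 : prM p e g h u ((i, j), Ke.L) = 4 * (p.S * i - p.M - g + p.q) + 1 := rfl
  have a2 : fx p e g ((i, j), Ke.L) = p.S * i - p.M - g := rfl
  rw [a1, a2] at hlt
  have h3 : |4 * (p.S * i - p.M - g + p.q) + 1 - 4 * (p.S * i - p.M - g + t)| = 4 * p.q + 1 - 4 * t := by
    rw [abs_of_pos] <;> omega
  rw [h3, abs_lt] at hlt
  obtain ⟨h1, h2⟩ := hlt
  have hc := pml_cmp p.S c i hS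
  unfold Rel at hrel
  cases k
  · left
    show -e' < 0
    omega
  · left
    show -e' < 0
    omega
  · exfalso
    have a4 : fx p e' g' ((c, r), Ke.R) = p.S * c + p.M + g' := rfl
    rw [a4] at h1 h2
    rcases hc with rfl | hc | hc <;> omega
  · right
    refine ⟨rfl, ?_⟩
    show -s < -t
    have a4 : fx p e' g' ((c, r), Ke.L) = p.S * c - p.M - g' := rfl
    rw [a4] at h1 h2
    rcases hc with rfl | hc | hc <;> omega
  · left
    show -e' < 0
    omega
  · left
    show -e' < 0
    omega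
  · exfalso
    have a4 : fx p e' g' ((c, r), Ke.J1) = p.S * c + p.M - 5 * p.q := rfl
    rw [a4] at h1 h2
    rcases hc with rfl | hc | hc <;> omega
  · exfalso
    have a4 : fx p e' g' ((c, r), Ke.J2) = p.S * c + p.M + p.W := rfl
    rw [a4] at h1 h2
    rcases hc with rfl | hc | hc <;> omega
  · exfalso
    have a4 : fx p e' g' ((c, r), Ke.J3) = p.S * c - p.M + 5 * p.q := rfl
    rw [a4] at h1 h2
    rcases hc with rfl | hc | hc <;> omega
  · exfalso
    have a4 : fx p e' g' ((c, r), Ke.J4) = p.S * c - p.M - p.W := rfl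
    rw [a4] at h1 h2
    rcases hc with rfl | hc | hc <;> omega

end Pool.NTC
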