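import Pool.Agent.H82.NTC.Stmts

/-!
Row XAL of the board `ntc`
-/

set_option autoImplicit false

namespace Pool.NTC

open Pool.NET

theorem xal_cmp (S a b : ℤ) (hS : 0 < S) :
    a = b ∨ S * a ≤ S * b - S ∨ S * b + S ≤ S * a := by
  rcases lt_trichotomy a b with h | h | h
  · right
    left
    have : S * (a + 1) ≤ S * b := mul_le_mul_of_nonneg_left (by omega) hS.le
    linarith
  · left
    exact h
  · right
    right
    have : S * (b + 1) ≤ S * a := mul_le_mul_of_nonneg_left (by omega) hS.le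
    linarith

theorem xal_thm : XSA Ke.L := by
  intro p e g N h u hp _ _ v w hv hw h1 h2 h3 h4
  obtain ⟨⟨c, r⟩, k⟩ := w
  obtain ⟨i, j⟩ := v
  obtain ⟨q0, gq, gW, We, eM, MS⟩ := hp
  have hS : 0 < p.S := by omega
  have n1 : nx2 h u ((i, j), Ke.L) = ((i, j), Ke.J3) := rfl
  have a1 : lo p e g h u ((i, j), Ke.L) = p.S * i - p.M - g - g - 4 * p.q := rfl
  have a2 : hi p e g h u ((i, j), Ke.L) = p.S * i - p.M + 5 * p.q + p.q := rfl
  have a3 : fy p e ((i, j), Ke.L) = p.S * j - e := rfl
  rw [a1] at h1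
  rw [a2] at h2
  rw [a3] at h3 h4
  rw [n1]
  have hc := xal_cmp p.S c i hS
  have hr := xal_cmp p.S r j hS
  cases k
  · have a4 : fx p e g ((c, r), Ke.NW) = p.S * c - e := rfl
    rw [a4] at h1 h2
    rcases hc with rfl | hc | hc <;> omega
  · have a4 : fx p e g ((c, r), Ke.SE) = p.S * c + e := rfl
    rw [a4] at h1 h2
    rcases hc with rfl | hc | hc <;> omega
  · have a4 : fx p e g ((c, r), Ke.R) = p.S * c + p.M + g := rfl
    rw [a4] at h1 h2
    rcases hc with rfl | hc | hc <;> omega
  · have a4 : fx p e g ((c, r), Ke.L) = p.S * c - p.M - g := rfl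
    have a5 : jl p e h u ((c, r), Ke.L) = p.S * r - e - p.q := rfl
    have a6 : jh p e h u ((c, r), Ke.L) = p.S * r + 3 * e + 3 * p.q := rfl
    rw [a4] at h1 h2
    rw [a5] at h3
    rw [a6] at h4
    left
    rcases hc with rfl | hc | hc
    · rcases hr with rfl | hr | hr
      · rfl
      · omega
      · omega
    · omega
    · omega
  · have a4 : fx p e g ((c, r), Ke.T) = p.S * c + e := rfl
    rw [a4] at h1 h2
    rcases hc with rfl | hc | hc <;> omega
  · have a4 : fx p e g ((c, r), Ke.B) = p.S * c - e := rfl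
    rw [a4] at h1 h2
    rcases hc with rfl | hc | hc <;> omega
  · have a4 : fx p e g ((c, r), Ke.J1) = p.S * c + p.M - 5 * p.q := rfl
    rw [a4] at h1 h2
    rcases hc with rfl | hc | hc <;> omega
  · have a4 : fx p e g ((c, r), Ke.J2) = p.S * c + p.M + p.W := rfl
    rw [a4] at h1 h2
    rcases hc with rfl | hc | hc <;> omega
  · have a4 : fx p e g ((c, r), Ke.J3) = p.S * c - p.M + 5 * p.q := rfl
    have a5 : jl p e h u ((c, r), Ke.J3) = p.S * r - e - p.q := rfl
    have a6 : jh p e h u ((c, r), Ke.J3) = p.S * r - e + p.q := rfl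
    rw [a4] at h1 h2
    rw [a5] at h3
    rw [a6] at h4
    right
    rcases hc with rfl | hc | hc
    · rcases hr with rfl | hr | hr
      · rfl
      · omega
      · omega
    · omega
    · omega
  · have a4 : fx p e g ((c, r), Ke.J4) = p.S * c - p.M - p.W := rfl
    have a5 : jl p e h u ((c, r), Ke.J4) = p.S * r + e - p.q := rfl
    have a6 : jh p e h u ((c, r), Ke.J4) = p.S * r + e + p.q := rfl
    rw [a4] at h1 h2
    rw [a5] at h3
    rw [a6] at h4
    exfalso
    rcases hr with rfl | hr | hr <;> omega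

end Pool.NTC
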